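import Pool.Agent.Lib.H60M.Fin2

/-!
# Quadratic twists of Maass newforms of squarefree level: the root numbers are never equidistributed

The definitions are in `Pool/Agent/Lib/H60M/Defs.lean` (`MaassNewform`, `eulerFactor`, `IsLFunction`, `NN`, `NF`) and
`Pool/Agent/Lib/H60M/Defs2.lean` (`MaassNewform.eps`, `IsRootNumber`, `Npos`, `Nvan`, `dpos`).
-/

open Filter Topology
open Pool.Agent.Lib.Maass Pool.Agent.Lib.H60M

namespace Pool.Agent.Results.MP_17f4cb_nt.MaassNewforms

/-- (i) For every prime `p` there is an odd Maass newform of level `p` (trivial character). (ii) Let `N` be squarefree and `F` any Maass newform of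
level `N`, even (`parity = 1`) or odd (`parity = -1`), with Atkin-Lehner eigenvalues `w_q`. For every quadratic extension `E` of `ℚ` there is
exactly one `L`-function `L(s, F, E)`; its root number is `parity · ∏_{q ∣ N, q unramified in E} w_q η_E(q)`; if it is `-1` then `L(1/2, F, E) = 0`. The
fields with root number `+1` have the density `dpos F = (1 + parity · ∏_{q ∣ N} 1/(q+1))/2`, which is less than `1/2` for odd `F` and greater
than `1/2` for even `F`, and lies strictly between `0` and `1` if `N > 1`. The limit superior of `NF F x / NN x` is at most `dpos F`, and for every real `d`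
the ratio `NF F x / NN x` tends to `d` exactly if the fields with root number `+1` and `L(1/2, F, E) = 0` have density `dpos F - d`. For odd `F` the ratio does not
tend to `1/2`. -/
theorem result :
    (∀ p : ℕ, p.Prime → ∃ F : MaassNewform p, F.parity = -1) ∧
    ∀ N : ℕ, Squarefree N → ∀ F : MaassNewform N,
      (∀ E : QuadExt, ∃! L : ℂ → ℂ, IsLFunction F E L) ∧
      (∀ (E : QuadExt) (ε : ℤ), IsRootNumber F E ε ↔ ε = F.eps E) ∧
      (∀ (E : QuadExt) (L : ℂ → ℂ), IsLFunction F E L → F.eps E = -1 → L (1 / 2) = 0) ∧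
      Tendsto (fun x : ℝ => (Npos F x : ℝ) / (NN x : ℝ)) atTop (𝓝 (dpos F)) ∧
      (F.parity = -1 → dpos F < 1 / 2) ∧ (F.parity = 1 → 1 / 2 < dpos F) ∧ (1 < N → 0 < dpos F ∧ dpos F < 1) ∧
      (∀ ε : ℝ, 0 < ε → ∀ᶠ x : ℝ in atTop, (NF F x : ℝ) / (NN x : ℝ) ≤ dpos F + ε) ∧
      (∀ d : ℝ, Tendsto (fun x : ℝ => (NF F x : ℝ) / (NN x : ℝ)) atTop (𝓝 d) ↔
        Tendsto (fun x : ℝ => (Nvan F x : ℝ) / (NN x : ℝ)) atTop (𝓝 (dpos F - d))) ∧
      (F.parity = -1 → ¬ Tendsto (fun x : ℝ => (NF F x : ℝ) / (NN x : ℝ)) atTop (𝓝 (1 / 2))) :=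
  ⟨exists_odd_newform, fun _ hN F => ⟨exists_unique_L hN F, eps_unique hN F, fun E L hL hE => eps_vanish hN F E hE L hL,
    npos_density F, dpos_odd F, dpos_even F, fun h => dpos_mem h F, nf_limsup hN F, nf_iff hN F, nf_not hN F⟩⟩

end Pool.Agent.Results.MP_17f4cb_nt.MaassNewforms
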