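import Pool.Agent.Lib.Maass.Exists
import Pool.Agent.Lib.Maass.Twist
import Pool.Agent.Lib.Maass.QuadField
import Pool.Agent.Lib.Maass.Count

/-!
# Quadratic twists of odd Hecke–Maass cusp forms of level one: Q1 of MP_17f4cb_nt is false
-/

open UpperHalfPlane Complex Filter Topology
open Pool.Agent.Lib.Maass

namespace Pool.Agent.Results.MP_17f4cb_nt.OddMaass

noncomputable section

/-- The Euler factor at `p` of the standard `L`-function of `π_F ⊗ η_E`, where `E` is a quadratic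
extension of `ℚ` and `etaQ E p = η_E(p)` is `0`, `1`, `-1` according as `p` is ramified, split,
inert in `E`. -/
def eulerFactor (F : HeckeMaassForm) (E : QuadExt) (s : ℂ) (p : Nat.Primes) : ℂ :=
  (1 - F.hecke p * (etaQ E.1 p : ℂ) * ((p : ℕ) : ℂ) ^ (-s) +
    (etaQ E.1 p : ℂ) ^ 2 * (((p : ℕ) : ℂ) ^ (-s)) ^ 2)⁻¹

/-- `L` is the standard `L`-function `s ↦ L(s, π_F ⊗ η_E)`: it is entire, and it is the
(unconditionally convergent) Euler product for `Re s > 3/2`. -/
def IsLFunction (F : HeckeMaassForm) (E : QuadExt) (L : ℂ → ℂ) : Prop :=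
  Differentiable ℂ L ∧ ∀ s : ℂ, 3 / 2 < s.re → HasProd (eulerFactor F E s) (L s)

/-- `N(x)`: the number of quadratic extensions `E` with `|Δ_E| < x`. -/
def N (x : ℝ) : ℕ := Nat.card {E : QuadExt // |(E.disc : ℝ)| < x}

/-- `N_π(x)`: the number of quadratic extensions `E` with `|Δ_E| < x` and
`L(1/2, π_F ⊗ η_E) ≠ 0`. -/
def NF (F : HeckeMaassForm) (x : ℝ) : ℕ :=
  Nat.card {E : QuadExt // |(E.disc : ℝ)| < x ∧ ∃ L : ℂ → ℂ, IsLFunction F E L ∧ L (1 / 2) ≠ 0}

theorem exists_LFunction (F : HeckeMaassForm) (hF : F.parity = -1) (E : QuadExt) :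
    ∃ L : ℂ → ℂ, IsLFunction F E L ∧ L (1 / 2) = 0 := by
  obtain ⟨χ, hprim, -, hχ, hχp⟩ := exists_quadratic_character E.1 E.2
  have hne : (NumberField.discr E.1).natAbs ≠ 0 := by
    rw [Int.natAbs_ne_zero]; exact NumberField.discr_ne_zero _
  have : NeZero (NumberField.discr E.1).natAbs := ⟨hne⟩
  obtain ⟨L, ⟨h1, h2⟩, h3⟩ := exists_twisted_LFunction F hF χ hprim hχ
  refine ⟨L, ⟨h1, fun s hs => ?_⟩, h3⟩
  have h4 : eulerFactor F E s = F.eulerFactor χ s := by
    funext p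
    rw [eulerFactor, HeckeMaassForm.eulerFactor, hχp p p.2]
  rw [h4]
  exact h2 s hs

theorem isLFunction_unique {F : HeckeMaassForm} {E : QuadExt} {L₁ L₂ : ℂ → ℂ}
    (h₁ : IsLFunction F E L₁) (h₂ : IsLFunction F E L₂) : L₁ = L₂ :=
  eq_of_hasProd h₁.1 h₂.1 h₁.2 h₂.2

/-- There are odd Hecke-Maass cusp forms of level one; and for EVERY odd Hecke-Maass cusp form `F` of level one, every quadratic twist has exactly one
`L`-function, it vanishes at `1/2`, so that `N_F(x) = 0` for all `x`, while `N(x)` tends to infinity: the ratio tends to `0` and not to `1/2`. -/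
theorem result : (∃ F : HeckeMaassForm, F.parity = -1) ∧
    Tendsto (fun x : ℝ => (N x : ℝ)) atTop atTop ∧
    ∀ F : HeckeMaassForm, F.parity = -1 →
      (∀ E : QuadExt, ∃! L : ℂ → ℂ, IsLFunction F E L) ∧
      (∀ (E : QuadExt) (L : ℂ → ℂ), IsLFunction F E L → L (1 / 2) = 0) ∧
      (∀ x : ℝ, NF F x = 0) ∧
      Tendsto (fun x : ℝ => (NF F x : ℝ) / (N x : ℝ)) atTop (𝓝 0) ∧
      ¬ Tendsto (fun x : ℝ => (NF F x : ℝ) / (N x : ℝ)) atTop (𝓝 (1 / 2)) := by
  refine ⟨exists_odd_heckeMaassForm, QuadExt.tendsto_card_disc_lt, fun F hF => ?_⟩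
  have hvan : ∀ (E : QuadExt) (L : ℂ → ℂ), IsLFunction F E L → L (1 / 2) = 0 := by
    intro E L hL
    obtain ⟨L', hL', h0⟩ := exists_LFunction F hF E
    rw [isLFunction_unique hL hL', h0]
  have hN : ∀ x : ℝ, NF F x = 0 := by
    intro x
    rw [NF, Nat.card_eq_zero]
    left
    constructor
    rintro ⟨E, -, L, hL, hL0⟩
    exact hL0 (hvan E L hL)
  have hlim : Tendsto (fun x : ℝ => (NF F x : ℝ) / (N x : ℝ)) atTop (𝓝 0) := by
    simp only [hN, Nat.cast_zero, zero_div]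
    exact tendsto_const_nhds
  refine ⟨fun E => ?_, hvan, hN, hlim, fun h => ?_⟩
  · obtain ⟨L, hL, -⟩ := exists_LFunction F hF E
    exact ⟨L, hL, fun L' hL' => isLFunction_unique hL' hL⟩
  · have := tendsto_nhds_unique h hlim
    norm_num at this

end

end Pool.Agent.Results.MP_17f4cb_nt.OddMaass
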